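import Pool.Agent.W187.WP.Stmts

/-! WP-GA (helper120): upper bound of Euler's constant -/

set_option autoImplicit false

namespace Pool.Agent.W120.WP
open Set Filter Pool.Agent.W187.WP
open scoped Topology

theorem log2_15 : |Real.log 2 - 0.69314718055994530942| ≤ 1 / 10 ^ 15 := by
  have t : |(2⁻¹ : ℝ)| = 2⁻¹ := by rw [abs_of_pos]; norm_num
  have z := Real.abs_log_sub_add_sum_range_le (show |(2⁻¹ : ℝ)| < 1 by rw [t]; norm_num) 54
  rw [t] at z
  have e1 : (1 : ℝ) - 2⁻¹ = 2⁻¹ := by norm_num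
  rw [e1, Real.log_inv, ← sub_eq_add_neg, _root_.abs_sub_comm] at z
  have hS : |(∑ i ∈ Finset.range 54, (2⁻¹ : ℝ) ^ (i + 1) / (i + 1)) - 0.69314718055994530942|
      ≤ 1 / 10 ^ 16 := by
    norm_num [Finset.sum_range_succ]
  have hz : |Real.log 2 - ∑ i ∈ Finset.range 54, (2⁻¹ : ℝ) ^ (i + 1) / (i + 1)| ≤ 2 / 10 ^ 16 := by
    refine z.trans ?_
    norm_num
  have h := abs_sub_le (Real.log 2) (∑ i ∈ Finset.range 54, (2⁻¹ : ℝ) ^ (i + 1) / (i + 1))
    0.69314718055994530942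
  norm_num at h hz hS ⊢
  linarith

/-- the corrected harmonic sum -/
noncomputable def rr (n : ℕ) : ℝ :=
  (harmonic n : ℝ) - Real.log n - 1 / (2 * n) + 1 / (12 * n ^ 2)

theorem log_lower (x : ℝ) (hx : 0 < x) :
    2 / (2 * x + 1) + 2 / 3 / (2 * x + 1) ^ 3 ≤ Real.log (1 + x⁻¹) := by
  have h := Real.hasSum_log_one_add_inv hx
  have h2 := sum_le_hasSum (Finset.range 2) (fun k _ => by positivity) h
  refine le_trans (le_of_eq ?_) h2
  rw [Finset.sum_range_succ, Finset.sum_range_succ, Finset.sum_range_zero]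
  norm_num
  have : 2 * x + 1 ≠ 0 := by positivity
  field_simp

theorem rat_ineq (x : ℝ) (hx : 0 < x) :
    1 / (2 * (x + 1)) + 1 / (2 * x) + 1 / (12 * (x + 1) ^ 2) - 1 / (12 * x ^ 2)
      ≤ 2 / (2 * x + 1) + 2 / 3 / (2 * x + 1) ^ 3 := by
  have e : 2 / (2 * x + 1) + 2 / 3 / (2 * x + 1) ^ 3
      - (1 / (2 * (x + 1)) + 1 / (2 * x) + 1 / (12 * (x + 1) ^ 2) - 1 / (12 * x ^ 2))
      = (1 + 1 / (2 * x + 1) ^ 2) / (24 * (2 * x + 1) * x ^ 2 * (x + 1) ^ 2) := by
    have h1 : 2 * x + 1 ≠ 0 := by positivity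
    have h2 : x + 1 ≠ 0 := by positivity
    field_simp
    ring
  have : 0 ≤ (1 + 1 / (2 * x + 1) ^ 2) / (24 * (2 * x + 1) * x ^ 2 * (x + 1) ^ 2) := by positivity
  linarith

theorem rr_succ (n : ℕ) (hn : 1 ≤ n) : rr (n + 1) ≤ rr n := by
  have hx : (0 : ℝ) < n := by exact_mod_cast hn
  have h1 := log_lower n hx
  have h2 := rat_ineq n hx
  have h3 : Real.log (1 + (n : ℝ)⁻¹) = Real.log ((n : ℝ) + 1) - Real.log n := by
    rw [← Real.log_div (by positivity) (by positivity)]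
    congr 1
    field_simp
  have h4 : (harmonic (n + 1) : ℝ) = harmonic n + 1 / ((n : ℝ) + 1) := by
    rw [harmonic_succ]
    push_cast
    rw [one_div]
  unfold rr
  rw [h4]
  push_cast
  rw [h3] at h1
  have h5 : 1 / ((n : ℝ) + 1) = 1 / (2 * ((n : ℝ) + 1)) + 1 / (2 * ((n : ℝ) + 1)) := by
    field_simp
    norm_num
  rw [h5]
  linarith

theorem rr_anti {m n : ℕ} (hm : 1 ≤ m) (hmn : m ≤ n) : rr n ≤ rr m := by
  induction n, hmn using Nat.le_induction with
  | base => exact le_rfl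
  | succ n hmn ih => exact (rr_succ n (hm.trans hmn)).trans ih

theorem rr_tendsto : Tendsto rr atTop (𝓝 Real.eulerMascheroniConstant) := by
  have h1 := Real.tendsto_eulerMascheroniSeq'
  have h2 : Tendsto (fun n : ℕ => 1 / (2 * (n : ℝ))) atTop (𝓝 0) := by
    have := (tendsto_one_div_atTop_nhds_zero_nat (𝕜 := ℝ)).const_mul (1 / 2)
    rw [mul_zero] at this
    refine this.congr fun n => ?_
    ring
  have h3 : Tendsto (fun n : ℕ => 1 / (12 * (n : ℝ) ^ 2)) atTop (𝓝 0) := by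
    have h4 := (tendsto_one_div_atTop_nhds_zero_nat (𝕜 := ℝ))
    have := (h4.mul h4).const_mul (1 / 12)
    rw [mul_zero, mul_zero] at this
    refine this.congr fun n => ?_
    ring
  have h4 := (h1.sub h2).add h3
  rw [sub_zero, add_zero] at h4
  refine h4.congr' ?_
  filter_upwards [eventually_ge_atTop 1] with n hn
  unfold rr Real.eulerMascheroniSeq'
  rw [if_neg (by omega)]

theorem harm : (harmonic 128 : ℝ) ≤ 5.4331470925892 := by
  have h : harmonic 128 ≤ (5.4331470925892 : ℚ) := by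
    norm_num [harmonic, Finset.sum_range_succ]
  have h' : ((harmonic 128 : ℚ) : ℝ) ≤ ((5.4331470925892 : ℚ) : ℝ) := Rat.cast_le.2 h
  refine h'.trans (le_of_eq ?_)
  norm_num

theorem ga : S_GA := by
  have h1 : Real.eulerMascheroniConstant ≤ rr 128 :=
    le_of_tendsto rr_tendsto ((eventually_ge_atTop 128).mono fun n hn => rr_anti (by norm_num) hn)
  have h2 := harm
  have h3 := log2_15
  rw [abs_le] at h3
  have h4 : Real.log ((128 : ℕ) : ℝ) = 7 * Real.log 2 := by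
    rw [show ((128 : ℕ) : ℝ) = 2 ^ 7 by norm_num, Real.log_pow]
    norm_num
  unfold S_GA
  refine h1.trans ?_
  unfold rr
  rw [h4]
  norm_num at h2 h3 ⊢
  linarith

end Pool.Agent.W120.WP
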