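import Pool.Agent.W187.WP.Stmts

/-! WP-KB (helper120): polynomial approximation of `exp (y/2) / sinh y - 1 / y` -/

set_option autoImplicit false

namespace Pool.Agent.W120.WP
open Set Filter Pool.Agent.W187.WP
open scoped Topology

/-! ### polynomials as lists of coefficients -/

/-- evaluation -/
noncomputable def ev : List ℚ → ℝ → ℝ
  | [], _ => 0
  | a :: l, y => (a : ℝ) + y * ev l y

def addL : List ℚ → List ℚ → List ℚ
  | [], m => m
  | a :: l, [] => a :: l
  | a :: l, b :: m => (a + b) :: addL l m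

def smulL (c : ℚ) : List ℚ → List ℚ
  | [] => []
  | a :: l => (c * a) :: smulL c l

def mulL : List ℚ → List ℚ → List ℚ
  | [], _ => []
  | a :: l, m => addL (smulL a m) (0 :: mulL l m)

def bd (B : ℚ) : List ℚ → ℚ
  | [] => 0
  | a :: l => |a| + B * bd B l

theorem ev_add (l m : List ℚ) (y : ℝ) : ev (addL l m) y = ev l y + ev m y := by
  induction l generalizing m with
  | nil => simp [addL, ev]
  | cons a l ih =>
    cases m with
    | nil => simp [addL, ev]
    | cons b m =>
      simp only [addL, ev, ih]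
      push_cast
      ring

theorem ev_smul (c : ℚ) (l : List ℚ) (y : ℝ) : ev (smulL c l) y = c * ev l y := by
  induction l with
  | nil => simp [smulL, ev]
  | cons a l ih =>
    simp only [smulL, ev, ih]
    push_cast
    ring

theorem ev_mul (l m : List ℚ) (y : ℝ) : ev (mulL l m) y = ev l y * ev m y := by
  induction l with
  | nil => simp [mulL, ev]
  | cons a l ih =>
    simp only [mulL, ev, ev_add, ev_smul, ih]
    push_cast
    ring

theorem bd_nonneg (B : ℚ) (hB : 0 ≤ B) (l : List ℚ) : 0 ≤ bd B l := by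
  induction l with
  | nil => simp [bd]
  | cons a l ih =>
    simp only [bd]
    positivity

theorem ev_le (B : ℚ) (l : List ℚ) (y : ℝ) (h0 : 0 ≤ y) (h1 : y ≤ B) : |ev l y| ≤ bd B l := by
  have hB : (0 : ℝ) ≤ B := h0.trans h1
  have hB' : 0 ≤ B := by exact_mod_cast hB
  induction l with
  | nil => simp [ev, bd]
  | cons a l ih =>
    simp only [ev, bd]
    have h2 : (0 : ℝ) ≤ bd B l := by exact_mod_cast bd_nonneg B hB' l
    calc |(a : ℝ) + y * ev l y| ≤ |(a : ℝ)| + |y * ev l y| := abs_add_le _ _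
      _ = |(a : ℝ)| + y * |ev l y| := by rw [abs_mul, abs_of_nonneg h0]
      _ ≤ |(a : ℝ)| + B * bd B l := by gcongr
      _ = _ := by push_cast; rfl

theorem ev_getD (l : List ℚ) (y : ℝ) :
    ∑ j ∈ Finset.range l.length, ((l.getD j 0 : ℚ) : ℝ) * y ^ j = ev l y := by
  induction l with
  | nil => simp [ev]
  | cons a l ih =>
    rw [List.length_cons, Finset.sum_range_succ']
    simp only [ev, ← ih, List.getD_cons_succ, List.getD_cons_zero, pow_zero, mul_one,
      Finset.mul_sum]
    rw [add_comm]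
    congr 1
    refine Finset.sum_congr rfl fun j _ => by ring

theorem ev_range (n : ℕ) (f : ℕ → ℚ) (y : ℝ) :
    ev ((List.range n).map f) y = ∑ i ∈ Finset.range n, (f i : ℝ) * y ^ i := by
  rw [← ev_getD]
  simp only [List.length_map, List.length_range]
  refine Finset.sum_congr rfl fun i hi => ?_
  rw [Finset.mem_range] at hi
  rw [List.getD_eq_getElem _ _ (by simpa using hi)]
  simp

/-- coefficients of `exp (y/2)` -/
def eL : List ℚ := (List.range 24).map fun k => 1 / (2 ^ k * (k.factorial : ℚ))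

/-- coefficients of `sinh` -/
def sL : List ℚ := (List.range 26).map fun k => (1 - (-1) ^ k) / (2 * (k.factorial : ℚ))

/-- the numerator -/
def nL : List ℚ := addL (0 :: eL) (smulL (-1) (mulL (1 :: bco) sL))

theorem nL_check : nL.take 2 = [0, 0] ∧ bd (111 / 100) (nL.drop 2) ≤ 8 / 10 ^ 11 := by
  decide +kernel

theorem pL_check : bd (111 / 100) (1 :: bco) ≤ 2 := by
  decide +kernel

theorem exp_trunc (x : ℝ) (n : ℕ) (hx : |x| / (n + 1) ≤ 1 / 2) :
    |Real.exp x - ∑ m ∈ Finset.range n, x ^ m / m.factorial| ≤ |x| ^ n / n.factorial * 2 := by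
  have h := Complex.exp_bound' (x := (x : ℂ)) (n := n) (by
    rw [Complex.norm_real, Real.norm_eq_abs]
    push_cast
    exact hx)
  rw [Complex.norm_real, Real.norm_eq_abs] at h
  have e : Complex.exp (x : ℂ) - ∑ m ∈ Finset.range n, (x : ℂ) ^ m / m.factorial
      = ((Real.exp x - ∑ m ∈ Finset.range n, x ^ m / m.factorial : ℝ) : ℂ) := by
    push_cast
    rfl
  rw [e, Complex.norm_real, Real.norm_eq_abs] at h
  exact h

theorem ev_eL (y : ℝ) : ev eL y = ∑ m ∈ Finset.range 24, (y / 2) ^ m / m.factorial := by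
  unfold eL
  rw [ev_range]
  refine Finset.sum_congr rfl fun i _ => ?_
  push_cast
  rw [div_pow]
  ring

theorem ev_sL (y : ℝ) : ev sL y = ((∑ m ∈ Finset.range 26, y ^ m / m.factorial)
    - ∑ m ∈ Finset.range 26, (-y) ^ m / m.factorial) / 2 := by
  unfold sL
  rw [ev_range, ← Finset.sum_sub_distrib, Finset.sum_div]
  refine Finset.sum_congr rfl fun i _ => ?_
  push_cast
  rw [neg_pow y i]
  have : (i.factorial : ℝ) ≠ 0 := by positivity
  field_simp

theorem kb : S_KB := by
  intro y h0 h1
  have hP : |ev (1 :: bco) y| ≤ 2 := by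
    refine (ev_le (111 / 100) _ y h0.le (by push_cast; linarith)).trans ?_
    exact_mod_cast pL_check
  have hp : ∑ j ∈ Finset.range 21, ((bco.getD j 0 : ℚ) : ℝ) * y ^ j = ev bco y := ev_getD bco y
  rw [hp]
  have hN : |ev nL y| ≤ y ^ 2 * (8 / 10 ^ 11) := by
    have e1 : nL = 0 :: 0 :: nL.drop 2 := by
      conv_lhs => rw [← List.take_append_drop 2 nL, nL_check.1]
      rfl
    have e2 : ev nL y = y ^ 2 * ev (nL.drop 2) y := by
      conv_lhs => rw [e1]
      simp only [ev]
      push_cast
      ring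
    rw [e2, abs_mul, abs_of_nonneg (by positivity : (0:ℝ) ≤ y ^ 2)]
    refine mul_le_mul_of_nonneg_left ?_ (by positivity)
    refine (ev_le (111 / 100) _ y h0.le (by push_cast; linarith)).trans ?_
    have h9 : ((bd (111 / 100) (nL.drop 2) : ℚ) : ℝ) ≤ ((8 / 10 ^ 11 : ℚ) : ℝ) :=
      Rat.cast_le.2 nL_check.2
    refine h9.trans (le_of_eq ?_)
    push_cast
    rfl
  have hNe : ev nL y = y * ev eL y - ev (1 :: bco) y * ev sL y := by
    unfold nL
    rw [ev_add, ev_smul, ev_mul]
    simp only [ev]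
    push_cast
    ring
  have hE : |Real.exp (y / 2) - ev eL y| ≤ y * (1 / 10 ^ 20) := by
    rw [ev_eL]
    refine (exp_trunc (y / 2) 24 ?_).trans ?_
    · rw [abs_of_pos (by positivity)]
      norm_num
      linarith
    · rw [abs_of_pos (by positivity)]
      have h2 : (y / 2) ^ 24 ≤ y / 2 := by
        calc (y / 2) ^ 24 = (y / 2) * (y / 2) ^ 23 := by ring
          _ ≤ (y / 2) * 1 := by
            refine mul_le_mul_of_nonneg_left (pow_le_one₀ (by positivity) (by linarith))
              (by positivity)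
          _ = y / 2 := mul_one _
      have h3 : ((24 : ℕ).factorial : ℝ) = 620448401733239439360000 := by
        norm_num [Nat.factorial]
      rw [h3]
      calc (y / 2) ^ 24 / 620448401733239439360000 * 2
          ≤ (y / 2) / 620448401733239439360000 * 2 := by gcongr
        _ ≤ y * (1 / 10 ^ 20) := by
            have : (y / 2) / 620448401733239439360000 * 2 = y * (1 / 620448401733239439360000) := by
              ring
            rw [this]
            refine mul_le_mul_of_nonneg_left (by norm_num) h0.le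
  have hS : |Real.sinh y - ev sL y| ≤ y ^ 2 * (1 / 10 ^ 20) := by
    have t1 := exp_trunc y 26 (by
      rw [abs_of_pos h0]; norm_num; linarith)
    have t2 := exp_trunc (-y) 26 (by
      rw [abs_neg, abs_of_pos h0]; norm_num; linarith)
    rw [abs_neg, abs_of_pos h0] at t2
    rw [abs_of_pos h0] at t1
    rw [ev_sL, Real.sinh_eq]
    have h3 : ((26 : ℕ).factorial : ℝ) = 403291461126605635584000000 := by
      norm_num [Nat.factorial]
    rw [h3] at t1 t2
    have h4 : y ^ 26 ≤ y ^ 2 * 13 := by
      have : y ^ 24 ≤ 13 := by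
        calc y ^ 24 ≤ (1.11 : ℝ) ^ 24 := pow_le_pow_left₀ h0.le h1 24
          _ ≤ 13 := by norm_num
      calc y ^ 26 = y ^ 2 * y ^ 24 := by ring
        _ ≤ y ^ 2 * 13 := by gcongr
    have h5 : y ^ 26 / 403291461126605635584000000 * 2 ≤ y ^ 2 * (1 / 10 ^ 20) := by
      calc y ^ 26 / 403291461126605635584000000 * 2
          ≤ (y ^ 2 * 13) / 403291461126605635584000000 * 2 := by gcongr
        _ = y ^ 2 * (26 / 403291461126605635584000000) := by ring
        _ ≤ y ^ 2 * (1 / 10 ^ 20) :=
            mul_le_mul_of_nonneg_left (by norm_num) (by positivity)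
    rw [abs_le] at t1 t2 ⊢
    constructor <;> linarith [t1.1, t1.2, t2.1, t2.2]
  have hsinh : y ≤ Real.sinh y := Real.self_le_sinh_iff.2 h0.le
  have hsp : 0 < Real.sinh y := h0.trans_le hsinh
  have hF : |y * Real.exp (y / 2) - ev (1 :: bco) y * Real.sinh y| ≤ y ^ 2 * (1 / 10 ^ 10) := by
    have e : y * Real.exp (y / 2) - ev (1 :: bco) y * Real.sinh y
        = y * (Real.exp (y / 2) - ev eL y) - ev (1 :: bco) y * (Real.sinh y - ev sL y)
          + ev nL y := by
      rw [hNe]; ring
    rw [e]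
    have a1 : |y * (Real.exp (y / 2) - ev eL y)| ≤ y * (y * (1 / 10 ^ 20)) := by
      rw [abs_mul, abs_of_pos h0]
      exact mul_le_mul_of_nonneg_left hE h0.le
    have a2 : |ev (1 :: bco) y * (Real.sinh y - ev sL y)| ≤ 2 * (y ^ 2 * (1 / 10 ^ 20)) := by
      rw [abs_mul]
      exact mul_le_mul hP hS (abs_nonneg _) (by norm_num)
    calc |y * (Real.exp (y / 2) - ev eL y) - ev (1 :: bco) y * (Real.sinh y - ev sL y)
          + ev nL y|
        ≤ |y * (Real.exp (y / 2) - ev eL y) - ev (1 :: bco) y * (Real.sinh y - ev sL y)|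
          + |ev nL y| := abs_add_le _ _
      _ ≤ (|y * (Real.exp (y / 2) - ev eL y)| + |ev (1 :: bco) y * (Real.sinh y - ev sL y)|)
          + |ev nL y| := by gcongr; exact abs_sub _ _
      _ ≤ (y * (y * (1 / 10 ^ 20)) + 2 * (y ^ 2 * (1 / 10 ^ 20))) + y ^ 2 * (8 / 10 ^ 11) := by
          gcongr
      _ = y ^ 2 * (3 / 10 ^ 20 + 8 / 10 ^ 11) := by ring
      _ ≤ y ^ 2 * (1 / 10 ^ 10) := mul_le_mul_of_nonneg_left (by norm_num) (by positivity)
  have hfin : Real.exp (y / 2) / Real.sinh y - 1 / y - ev bco y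
      = (y * Real.exp (y / 2) - ev (1 :: bco) y * Real.sinh y) / (y * Real.sinh y) := by
    simp only [ev]
    push_cast
    field_simp
    ring
  rw [hfin, abs_div, abs_of_pos (by positivity : 0 < y * Real.sinh y), div_le_iff₀ (by positivity)]
  refine hF.trans ?_
  have h6 : y ^ 2 ≤ y * Real.sinh y := by
    rw [sq]; exact mul_le_mul_of_nonneg_left hsinh h0.le
  linarith

end Pool.Agent.W120.WP
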