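import Pool.Agent.W187.WP.Stmts2
import Pool.Agent.W120.WP.GA

/-! WP-N1 (helper120) -/

set_option autoImplicit false

namespace Pool.Agent.W120.WP
open Set MeasureTheory Pool.Agent.W187.WP

theorem n1 : S_N1 := by
  unfold S_N1
  have hg := ga
  unfold S_GA at hg
  have hl := abs_le.1 log2_15
  have hl0 : 0 < Real.log 2 := Real.log_pos (by norm_num)
  have hpi := Real.pi_lt_d20
  have hpi0 := Real.pi_pos
  have e1 : Real.log (4 * Real.pi * (4 / 5 * Real.log 2)) - Real.log 2 =
      Real.log (8 / 5 * Real.pi * Real.log 2) := by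
    rw [← Real.log_div (by positivity) (by norm_num)]
    congr 1
    ring
  have e2 : Real.log (8 / 5 * Real.pi * Real.log 2) ≤ 1.248220595365 := by
    rw [Real.log_le_iff_le_exp (by positivity)]
    have h1 := Real.sum_le_exp_of_nonneg (x := 1.248220595365) (by norm_num) 17
    refine le_trans ?_ h1
    have h2 : 8 / 5 * Real.pi * Real.log 2 ≤
        8 / 5 * 3.14159265358979323847 * (0.69314718055994530942 + 1 / 10 ^ 15) := by
      apply mul_le_mul
      · linarith
      · linarith [hl.2]
      · exact hl0.le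
      · norm_num
    refine h2.trans ?_
    norm_num [Finset.sum_range_succ, Nat.factorial]
  have e3 : ((c2Q : ℚ) : ℝ) = 1.825436260415 := by
    unfold c2Q
    norm_num
  rw [e3]
  rw [show Real.eulerMascheroniConstant + Real.log (4 * Real.pi * (4 / 5 * Real.log 2)) -
    Real.log 2 + 1 / 10 ^ 10 = Real.eulerMascheroniConstant +
      (Real.log (4 * Real.pi * (4 / 5 * Real.log 2)) - Real.log 2) + 1 / 10 ^ 10 by ring, e1]
  norm_num at hg e2 ⊢
  linarith

end Pool.Agent.W120.WP
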