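import Pool.Agent.W187.WP.Stmts2
import Pool.Agent.W120.WP.GA
import Pool.Agent.W120.WP.KB

/-! WP-N2 (helper120) -/

set_option autoImplicit false

namespace Pool.Agent.W120.WP
open Set MeasureTheory Pool.Agent.W187.WP

theorem ev_eq_ev (l : List ℚ) (x : ℝ) : Pool.Agent.W187.WP.ev l x = Pool.Agent.W120.WP.ev l x := by
  induction l with
  | nil => rfl
  | cons a l ih => simp only [Pool.Agent.W187.WP.ev, Pool.Agent.W120.WP.ev, ih]

/-- Lipschitz bound -/
def lip (B : ℚ) : List ℚ → ℚ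
  | [] => 0
  | _ :: l => bd B l + B * lip B l

theorem lip_nonneg (B : ℚ) (hB : 0 ≤ B) (l : List ℚ) : 0 ≤ lip B l := by
  induction l with
  | nil => simp [lip]
  | cons a l ih =>
    simp only [lip]
    have := bd_nonneg B hB l
    positivity

theorem ev_lip (B : ℚ) (l : List ℚ) (x y : ℝ) (hx : 0 ≤ x) (hxB : x ≤ B) (hy : 0 ≤ y)
    (hyB : y ≤ B) : |Pool.Agent.W120.WP.ev l x - Pool.Agent.W120.WP.ev l y| ≤ |x - y| * lip B l := by
  have hB : (0 : ℝ) ≤ B := hx.trans hxB
  have hB' : 0 ≤ B := by exact_mod_cast hB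
  induction l with
  | nil => simp [Pool.Agent.W120.WP.ev, lip]
  | cons a l ih =>
    simp only [Pool.Agent.W120.WP.ev, lip]
    have h1 := ev_le B l x hx hxB
    have h3 : (0 : ℝ) ≤ lip B l := by exact_mod_cast lip_nonneg B hB' l
    have e : (a : ℝ) + x * Pool.Agent.W120.WP.ev l x - (a + y * Pool.Agent.W120.WP.ev l y) =
        (x - y) * Pool.Agent.W120.WP.ev l x +
          y * (Pool.Agent.W120.WP.ev l x - Pool.Agent.W120.WP.ev l y) := by ring
    rw [e]
    calc _ ≤ |(x - y) * Pool.Agent.W120.WP.ev l x| +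
          |y * (Pool.Agent.W120.WP.ev l x - Pool.Agent.W120.WP.ev l y)| := abs_add_le _ _
      _ = |x - y| * |Pool.Agent.W120.WP.ev l x| +
          y * |Pool.Agent.W120.WP.ev l x - Pool.Agent.W120.WP.ev l y| := by
            rw [abs_mul, abs_mul, abs_of_nonneg hy]
      _ ≤ |x - y| * bd B l + B * (|x - y| * lip B l) := by gcongr
      _ = _ := by push_cast; ring

/-- substitution `x ↦ c x` -/
def scaleL (c : ℚ) : List ℚ → List ℚ
  | [] => []
  | a :: l => a :: smulL c (scaleL c l)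

theorem ev_scale (c : ℚ) (l : List ℚ) (x : ℝ) :
    Pool.Agent.W120.WP.ev (scaleL c l) x = Pool.Agent.W120.WP.ev l (c * x) := by
  induction l with
  | nil => simp [scaleL, Pool.Agent.W120.WP.ev]
  | cons a l ih =>
    simp only [scaleL, Pool.Agent.W120.WP.ev, ev_smul, ih]
    ring

/-- difference of the rational polynomials -/
def dL : List ℚ := addL (smulL aQ (scaleL aQ bco)) (smulL (-1) btl)

theorem dL_check : bd 2 dL ≤ 1 / 10 ^ 11 := by
  decide +kernel

theorem lip_check : lip (111 / 100) bco ≤ 2 := by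
  decide +kernel

theorem bd_check : bd (111 / 100) bco ≤ 2 := by
  decide +kernel

theorem aQ_close : |4 / 5 * Real.log 2 - (aQ : ℝ)| ≤ 1 / 10 ^ 14 := by
  have h := abs_le.1 log2_15
  rw [abs_le]
  unfold aQ
  push_cast
  norm_num at h ⊢
  constructor <;> linarith

theorem n2 (hK : S_KB) : S_N2 := by
  intro s hs0 hs2
  have hl := abs_le.1 log2_15
  have hQ := abs_le.1 aQ_close
  have haQ : (aQ : ℝ) = 0.55451774444795624753 := by unfold aQ; norm_num
  have ha0 : 0 < 4 / 5 * Real.log 2 := by have := Real.log_pos (show (1 : ℝ) < 2 by norm_num); positivity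
  generalize haa : 4 / 5 * Real.log 2 = a at *
  have ha1 : a ≤ 0.555 := by norm_num at hQ haQ ⊢; linarith
  have hy0 : 0 < a * s := by positivity
  have hy1 : a * s ≤ 1.11 := by nlinarith
  have h1 := hK (a * s) hy0 hy1
  have e21 : bco.length = 21 := rfl
  rw [← e21, ev_getD] at h1
  rw [ev_eq_ev]
  set E := Real.exp (a * s / 2) / Real.sinh (a * s) with hE
  have e1 : a * Real.exp (a * s / 2) / Real.sinh (a * s) - 1 / s - Pool.Agent.W120.WP.ev btl s =
      a * (E - 1 / (a * s) - Pool.Agent.W120.WP.ev bco (a * s)) +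
      (a - aQ) * Pool.Agent.W120.WP.ev bco (a * s) +
      aQ * (Pool.Agent.W120.WP.ev bco (a * s) - Pool.Agent.W120.WP.ev bco (aQ * s)) +
      Pool.Agent.W120.WP.ev dL s := by
    unfold dL
    rw [ev_add, ev_smul, ev_smul, ev_scale]
    have : a * (1 / (a * s)) = 1 / s := by field_simp
    rw [hE]
    push_cast
    linear_combination this
  rw [e1]
  have hQ0 : (0 : ℝ) ≤ aQ := by rw [haQ]; norm_num
  have hQs : (aQ : ℝ) * s ≤ ((111 / 100 : ℚ) : ℝ) := by
    rw [haQ]; push_cast; norm_num; linarith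
  have hys : a * s ≤ ((111 / 100 : ℚ) : ℝ) := by
    push_cast; norm_num at hy1 ⊢; exact hy1
  have b1 := ev_le (111 / 100) bco (a * s) hy0.le hys
  have b2 := ev_lip (111 / 100) bco (a * s) (aQ * s) hy0.le hys (by positivity) hQs
  have b3 := ev_le 2 dL s hs0.le (by push_cast; exact hs2)
  have c1 : ((bd (111 / 100) bco : ℚ) : ℝ) ≤ 2 := by exact_mod_cast bd_check
  have c2 : ((lip (111 / 100) bco : ℚ) : ℝ) ≤ 2 := by exact_mod_cast lip_check
  have c3 : ((bd 2 dL : ℚ) : ℝ) ≤ 1 / 10 ^ 11 := by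
    have := dL_check
    have h : ((bd 2 dL : ℚ) : ℝ) ≤ ((1 / 10 ^ 11 : ℚ) : ℝ) := by exact_mod_cast this
    push_cast at h
    exact h
  have d1 : |a * (E - 1 / (a * s) - Pool.Agent.W120.WP.ev bco (a * s))| ≤ 1 * (1 / 10 ^ 10) := by
    rw [abs_mul, abs_of_pos ha0]
    apply mul_le_mul _ h1 (abs_nonneg _) (by norm_num)
    norm_num at ha1 ⊢; linarith
  have d2 : |(a - aQ) * Pool.Agent.W120.WP.ev bco (a * s)| ≤ 1 / 10 ^ 14 * 2 := by
    rw [abs_mul]
    exact mul_le_mul (abs_le.2 hQ) (b1.trans c1) (abs_nonneg _) (by norm_num)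
  have d3 : |(aQ : ℝ) * (Pool.Agent.W120.WP.ev bco (a * s) - Pool.Agent.W120.WP.ev bco (aQ * s))| ≤
      1 * ((1 / 10 ^ 14 * 2) * 2) := by
    rw [abs_mul, abs_of_nonneg hQ0]
    have e4 : |a * s - aQ * s| ≤ 1 / 10 ^ 14 * 2 := by
      rw [← sub_mul, abs_mul, abs_of_pos hs0]
      exact mul_le_mul (abs_le.2 hQ) hs2 hs0.le (by norm_num)
    apply mul_le_mul
    · rw [haQ]; norm_num
    · refine b2.trans ?_
      have : (0 : ℝ) ≤ ((lip (111 / 100) bco : ℚ) : ℝ) := by
        exact_mod_cast lip_nonneg _ (by norm_num) _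
      exact mul_le_mul e4 c2 this (by norm_num)
    · exact abs_nonneg _
    · norm_num
  have d4 := b3.trans c3
  refine (abs_add_le _ _).trans ?_
  refine (add_le_add ((abs_add_le _ _).trans (add_le_add (abs_add_le _ _) le_rfl)) le_rfl).trans ?_
  refine (add_le_add (add_le_add (add_le_add d1 d2) d3) d4).trans ?_
  norm_num

end Pool.Agent.W120.WP
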