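import Pool.Agent.W187.WP.Stmts2

/-! WP-TRI and WP-DB (helper120) -/

set_option autoImplicit false

namespace Pool.Agent.W120.WP
open Set MeasureTheory Pool.Agent.W187.WP

theorem tri_integrable (F : ℝ → ℝ → ℝ) (hF : Continuous (Function.uncurry F)) :
    Integrable (Function.uncurry (fun x y => if x < y then F x y else 0))
      ((volume.restrict (Ioc (-1 : ℝ) 1)).prod (volume.restrict (Ioc (-1 : ℝ) 1))) := by
  have h1 : IntegrableOn (Function.uncurry F) (Icc (-1 : ℝ) 1 ×ˢ Icc (-1 : ℝ) 1)
      (volume.prod volume) :=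
    hF.continuousOn.integrableOn_compact (isCompact_Icc.prod isCompact_Icc)
  have h2 : IntegrableOn (Function.uncurry F) (Ioc (-1 : ℝ) 1 ×ˢ Ioc (-1 : ℝ) 1)
      (volume.prod volume) :=
    h1.mono_set (prod_mono Ioc_subset_Icc_self Ioc_subset_Icc_self)
  rw [Measure.prod_restrict]
  have h3 : MeasurableSet {p : ℝ × ℝ | p.1 < p.2} := measurableSet_lt measurable_fst measurable_snd
  have h4 := Integrable.indicator h2 h3
  refine h4.congr (Filter.Eventually.of_forall ?_)
  intro p
  simp only [indicator, mem_ofPred_eq, Function.uncurry]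

theorem tri : S_TRI := by
  intro F hF
  have hl : ∫ x in (-1 : ℝ)..1, (∫ y in x..1, F x y) =
      ∫ x in Ioc (-1 : ℝ) 1, ∫ y in Ioc (-1 : ℝ) 1, (if x < y then F x y else 0) := by
    rw [intervalIntegral.integral_of_le (by norm_num)]
    refine setIntegral_congr_fun measurableSet_Ioc (fun x hx => ?_)
    rw [intervalIntegral.integral_of_le hx.2]
    have : (fun y => if x < y then F x y else 0) = (Ioi x).indicator (F x) := by
      funext y
      simp [indicator]
    rw [this, setIntegral_indicator measurableSet_Ioi]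
    congr 2
    ext y
    simp only [mem_inter_iff, mem_Ioc, mem_Ioi]
    constructor
    · rintro ⟨h1, h2⟩
      exact ⟨⟨hx.1.trans h1, h2⟩, h1⟩
    · rintro ⟨⟨_, h2⟩, h3⟩
      exact ⟨h3, h2⟩
  have hr : ∫ y in (-1 : ℝ)..1, (∫ x in (-1 : ℝ)..y, F x y) =
      ∫ y in Ioc (-1 : ℝ) 1, ∫ x in Ioc (-1 : ℝ) 1, (if x < y then F x y else 0) := by
    rw [intervalIntegral.integral_of_le (by norm_num)]
    refine setIntegral_congr_fun measurableSet_Ioc (fun y hy => ?_)
    rw [intervalIntegral.integral_of_le hy.1.le, integral_Ioc_eq_integral_Ioo]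
    have : (fun x => if x < y then F x y else 0) = (Iio y).indicator (fun x => F x y) := by
      funext x
      simp [indicator]
    rw [this, setIntegral_indicator measurableSet_Iio]
    congr 2
    ext x
    simp only [mem_inter_iff, mem_Ioc, mem_Ioo, mem_Iio]
    constructor
    · rintro ⟨h1, h2⟩
      exact ⟨⟨h1, (h2.trans_le hy.2).le⟩, h2⟩
    · rintro ⟨⟨h1, _⟩, h3⟩
      exact ⟨h1, h3⟩
  rw [hl, hr]
  exact integral_integral_swap (tri_integrable F hF)

/-- the inner integral depends continuously on `x` -/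
theorem inner_continuous (F : ℝ → ℝ → ℝ) (hF : Continuous (Function.uncurry F)) :
    Continuous (fun x => ∫ y in x..1, F x y) := by
  have h1 : Continuous (fun p : ℝ × ℝ => ∫ y in (1 : ℝ)..p.1, F p.2 y) := by
    have := intervalIntegral.continuous_parametric_intervalIntegral_of_continuous
      (f := fun p : ℝ × ℝ => F p.2) (a₀ := 1) (s := fun p : ℝ × ℝ => p.1) (μ := volume)
      (by
        have : Continuous (fun q : (ℝ × ℝ) × ℝ => Function.uncurry F (q.1.2, q.2)) := by
          fun_prop
        exact this) (by fun_prop)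
    exact this
  have h2 : (fun x => ∫ y in x..1, F x y) = fun x => -∫ y in (1 : ℝ)..x, F x y := by
    funext x
    rw [intervalIntegral.integral_symm]
  rw [h2]
  have h3 : Continuous (fun x : ℝ => ((x, x) : ℝ × ℝ)) := by fun_prop
  exact (h1.comp h3).neg

/-- the autocorrelation of a function vanishing outside `(-1, 1)` -/
theorem GG_eq (h : ℝ → ℝ) (h0 : ∀ x, 1 ≤ |x| → h x = 0) (s : ℝ) (_hs : 0 ≤ s) (hs2 : s ≤ 2) :
    GG h s = ∫ x in (-1 : ℝ)..(1 - s), h x * h (x + s) := by
  unfold GG
  rw [intervalIntegral.integral_of_le (by linarith)]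
  rw [← setIntegral_eq_integral_of_forall_compl_eq_zero (s := Ioc (-1 : ℝ) (1 - s))]
  · refine setIntegral_congr_fun measurableSet_Ioc (fun x _ => ?_)
    ring
  · intro x hx
    rw [mem_Ioc, not_and_or, not_lt, not_le] at hx
    rcases hx with hx | hx
    · rw [h0 x (by rw [le_abs]; right; linarith), mul_zero]
    · rw [h0 (x + s) (by rw [le_abs]; left; linarith), zero_mul]

theorem tri' (F : ℝ → ℝ → ℝ) (hF : Continuous (Function.uncurry F)) :
    ∫ s in (0 : ℝ)..2, (∫ x in (-1 : ℝ)..(1 - s), F x (x + s)) =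
      ∫ x in (-1 : ℝ)..1, (∫ y in x..1, F x y) := by
  have e1 : ∫ s in (0 : ℝ)..2, (∫ x in (-1 : ℝ)..(1 - s), F x (x + s)) =
      ∫ y in (-1 : ℝ)..1, (∫ x in (-1 : ℝ)..y, F x (x + 1 - y)) := by
    have := intervalIntegral.integral_comp_sub_left
      (f := fun s => ∫ x in (-1 : ℝ)..(1 - s), F x (x + s)) (a := -1) (b := 1) 1
    rw [show (1 : ℝ) - 1 = 0 by norm_num, show (1 : ℝ) - -1 = 2 by norm_num] at this
    rw [← this]
    congr 1
    funext y
    rw [show (1 : ℝ) - (1 - y) = y by ring]
    congr 1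
    funext x
    congr 1
    ring
  rw [e1]
  have hF' : Continuous (Function.uncurry (fun x y => F x (x + 1 - y))) := by
    have : Continuous (fun p : ℝ × ℝ => Function.uncurry F (p.1, p.1 + 1 - p.2)) := by fun_prop
    exact this
  rw [← tri (fun x y => F x (x + 1 - y)) hF']
  congr 1
  funext x
  have := intervalIntegral.integral_comp_sub_left
      (f := fun y => F x y) (a := x) (b := 1) (x + 1)
  rw [show x + 1 - 1 = x by ring, show x + 1 - x = 1 by ring] at this
  exact this

theorem db (_hT : S_TRI) : S_DB := by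
  intro h hh h0 φ hφ
  have hc : Continuous h := hh.continuous
  have hF : Continuous (Function.uncurry (fun x y => φ (y - x) * (h x * h y))) := by
    have : Continuous (fun p : ℝ × ℝ => φ (p.2 - p.1) * (h p.1 * h p.2)) := by fun_prop
    exact this
  rw [← tri' _ hF]
  apply intervalIntegral.integral_congr
  intro s hs
  rw [uIcc_of_le (by norm_num)] at hs
  simp only []
  rw [GG_eq h h0 s hs.1 hs.2, ← intervalIntegral.integral_const_mul]
  congr 1
  funext x
  rw [show x + s - x = s by ring]

end Pool.Agent.W120.WP
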