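import Pool.Agent.W187.WP.Stmts

/-! WP-TX (helper120): polarised logarithmic energy against a monomial -/

set_option autoImplicit false

namespace Pool.Agent.W120.WP
open MeasureTheory Set Pool.Agent.W187.WP
open scoped Topology

theorem ii {f : ℝ → ℝ} (hf : Continuous f) (a b : ℝ) : IntervalIntegrable f volume a b :=
  hf.intervalIntegrable a b

theorem inner_eq (n : ℕ) (w : ℝ → ℝ) (hw : Continuous w) (x : ℝ) (hx : x ≤ 1) :
    ∫ y in x..1, (y ^ n - x ^ n) * (w y - w x) / (y - x) =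
      ∑ k ∈ Finset.range n, (x ^ (n - 1 - k) * (∫ y in x..1, y ^ k * w y)
        - x ^ (n - 1 - k) * w x * ∫ y in x..1, y ^ k) := by
  have h1 : ∫ y in x..1, (y ^ n - x ^ n) * (w y - w x) / (y - x)
      = ∫ y in x..1, ∑ k ∈ Finset.range n, (x ^ (n - 1 - k) * (y ^ k * w y)
        - x ^ (n - 1 - k) * w x * y ^ k) := by
    apply intervalIntegral.integral_congr_ae
    refine Filter.Eventually.of_forall fun y hy => ?_
    rw [uIoc_of_le hx] at hy
    have hne : y - x ≠ 0 := by
      have := hy.1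
      intro h
      linarith
    have h2 := geom_sum₂_mul y x n
    rw [← h2]
    have h3 : (∑ i ∈ Finset.range n, y ^ i * x ^ (n - 1 - i)) * (y - x) * (w y - w x) / (y - x)
        = (∑ i ∈ Finset.range n, y ^ i * x ^ (n - 1 - i)) * (w y - w x) := by
      field_simp
    rw [h3, Finset.sum_mul]
    refine Finset.sum_congr rfl fun k _ => by ring
  rw [h1, intervalIntegral.integral_finsetSum]
  · refine Finset.sum_congr rfl fun k _ => ?_
    rw [intervalIntegral.integral_sub (ii (by fun_prop) _ _) (ii (by fun_prop) _ _),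
      intervalIntegral.integral_const_mul, intervalIntegral.integral_const_mul]
  · intro k _
    exact ii (by fun_prop) _ _

theorem by_parts (p k : ℕ) (w : ℝ → ℝ) (hw : Continuous w) :
    ∫ x in (-1:ℝ)..1, x ^ p * (∫ y in x..1, y ^ k * w y)
      = ∫ x in (-1:ℝ)..1, w x * (x ^ k * (x ^ (p + 1) - (-1) ^ (p + 1)) / (p + 1)) := by
  have hf : Continuous fun y : ℝ => y ^ k * w y := by fun_prop
  have hB : ∀ x ∈ uIcc (-1:ℝ) 1, HasDerivAt (fun x => ∫ y in x..1, y ^ k * w y)
      (-(x ^ k * w x)) x := by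
    intro x _
    exact intervalIntegral.integral_hasDerivAt_left (ii hf _ _)
      (hf.stronglyMeasurable.stronglyMeasurableAtFilter) hf.continuousAt
  have hA : ∀ x ∈ uIcc (-1:ℝ) 1, HasDerivAt
      (fun x : ℝ => (x ^ (p + 1) - (-1) ^ (p + 1)) / (p + 1)) (x ^ p) x := by
    intro x _
    have h1 := ((hasDerivAt_pow (p + 1) x).sub_const ((-1 : ℝ) ^ (p + 1))).div_const ((p : ℝ) + 1)
    refine h1.congr_deriv ?_
    have : (p : ℝ) + 1 ≠ 0 := by positivity
    push_cast
    field_simp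
  have h := intervalIntegral.integral_mul_deriv_eq_deriv_mul hB hA (ii (by fun_prop) _ _)
    (ii (by fun_prop) _ _)
  have e1 : ∫ x in (-1:ℝ)..1, x ^ p * (∫ y in x..1, y ^ k * w y)
      = ∫ x in (-1:ℝ)..1, (∫ y in x..1, y ^ k * w y) * x ^ p := by
    congr 1; ext x; ring
  rw [e1, h]
  simp only [intervalIntegral.integral_same, zero_mul, sub_self, zero_div, mul_zero, zero_sub]
  rw [← intervalIntegral.integral_neg]
  congr 1
  ext x
  ring

theorem tx : S_TX := by
  intro n w hw'
  have hw := hw'.continuous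
  have hBc : ∀ k : ℕ, Continuous fun x : ℝ => ∫ y in x..1, y ^ k * w y := by
    intro k
    have hf : Continuous fun y : ℝ => y ^ k * w y := by fun_prop
    have : (fun x : ℝ => ∫ y in x..1, y ^ k * w y) = fun x => -∫ y in (1:ℝ)..x, y ^ k * w y := by
      ext x; rw [intervalIntegral.integral_symm]
    rw [this]
    exact (intervalIntegral.continuous_primitive (fun a b => ii hf a b) 1).neg
  have h1 : ∫ x in (-1 : ℝ)..1, (∫ y in x..1, (y ^ n - x ^ n) * (w y - w x) / (y - x))
      = ∫ x in (-1 : ℝ)..1, ∑ k ∈ Finset.range n, (x ^ (n - 1 - k) * (∫ y in x..1, y ^ k * w y)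
        - w x * (x ^ (n - 1 - k) * ((1 - x ^ (k + 1)) / (k + 1)))) := by
    apply intervalIntegral.integral_congr
    intro x hx
    rw [uIcc_of_le (by norm_num)] at hx
    show (∫ y in x..1, (y ^ n - x ^ n) * (w y - w x) / (y - x)) = _
    rw [inner_eq n w hw x hx.2]
    refine Finset.sum_congr rfl fun k _ => ?_
    rw [integral_pow, one_pow]
    ring
  rw [h1, intervalIntegral.integral_finsetSum]
  swap
  · intro k _
    have := hBc k
    exact ii (by fun_prop) _ _
  have h2 : ∀ k ∈ Finset.range n, ∫ x in (-1 : ℝ)..1, (x ^ (n - 1 - k) * (∫ y in x..1, y ^ k * w y)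
        - w x * (x ^ (n - 1 - k) * ((1 - x ^ (k + 1)) / (k + 1))))
      = ∫ x in (-1 : ℝ)..1, w x * ((x ^ n - (-1) ^ (n - k) * x ^ k) / ((n : ℝ) - k)
        - (x ^ (n - 1 - k) - x ^ n) / (k + 1)) := by
    intro k hk
    rw [Finset.mem_range] at hk
    have hB := hBc k
    rw [intervalIntegral.integral_sub (ii (by fun_prop) _ _) (ii (by fun_prop) _ _), by_parts _ _ w hw,
      ← intervalIntegral.integral_sub (ii (by fun_prop) _ _) (ii (by fun_prop) _ _)]
    congr 1
    ext x
    have e1 : n - 1 - k + 1 = n - k := by omega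
    have e2 : ((n - 1 - k : ℕ) : ℝ) + 1 = (n : ℝ) - k := by
      have : ((n - 1 - k : ℕ) : ℝ) + 1 = ((n - 1 - k + 1 : ℕ) : ℝ) := by push_cast; ring
      rw [this, e1, Nat.cast_sub hk.le]
    have e3 : x ^ k * x ^ (n - k) = x ^ n := by rw [← pow_add]; congr 1; omega
    have e4 : x ^ (n - 1 - k) * x ^ (k + 1) = x ^ n := by rw [← pow_add]; congr 1; omega
    rw [e1, e2, ← e3]
    have e5 : x ^ (n - 1 - k) * ((1 - x ^ (k + 1)) / (k + 1))
        = (x ^ (n - 1 - k) - x ^ k * x ^ (n - k)) / (k + 1) := by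
      rw [e3, ← e4]; ring
    rw [e5]
    ring
  rw [Finset.sum_congr rfl h2, ← intervalIntegral.integral_finsetSum]
  swap
  · intro k _
    exact ii (by fun_prop) _ _
  congr 1
  ext x
  rw [← Finset.mul_sum]
  congr 1
  rw [Finset.sum_sub_distrib]
  have h3 : ∑ k ∈ Finset.range n, (x ^ (n - 1 - k) - x ^ n) / ((k : ℝ) + 1)
      = ∑ k ∈ Finset.range n, (x ^ k - x ^ n) / ((n : ℝ) - k) := by
    rw [← Finset.sum_range_reflect]
    refine Finset.sum_congr rfl fun k hk => ?_
    rw [Finset.mem_range] at hk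
    have e1 : n - 1 - (n - 1 - k) = k := by omega
    have e2 : ((n - 1 - k : ℕ) : ℝ) + 1 = (n : ℝ) - k := by
      have : ((n - 1 - k : ℕ) : ℝ) + 1 = ((n - 1 - k + 1 : ℕ) : ℝ) := by push_cast; ring
      rw [this, show n - 1 - k + 1 = n - k by omega, Nat.cast_sub hk.le]
    rw [e1, e2]
  have h4 : ∑ i ∈ Finset.range n, (1 : ℝ) / (i + 1) = ∑ k ∈ Finset.range n, 1 / ((n : ℝ) - k) := by
    rw [← Finset.sum_range_reflect]
    refine Finset.sum_congr rfl fun k hk => ?_
    rw [Finset.mem_range] at hk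
    have e2 : ((n - 1 - k : ℕ) : ℝ) + 1 = (n : ℝ) - k := by
      have : ((n - 1 - k : ℕ) : ℝ) + 1 = ((n - 1 - k + 1 : ℕ) : ℝ) := by push_cast; ring
      rw [this, show n - 1 - k + 1 = n - k by omega, Nat.cast_sub hk.le]
    rw [e2]
  unfold TT
  rw [h3, h4, Finset.mul_sum, Finset.sum_mul, ← Finset.sum_sub_distrib, ← Finset.sum_sub_distrib]
  refine Finset.sum_congr rfl fun k hk => ?_
  rw [Finset.mem_range] at hk
  by_cases he : Even (n - k)
  · rw [if_pos he, he.neg_one_pow]
    ring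
  · rw [if_neg he, (Nat.not_even_iff_odd.1 he).neg_one_pow]
    ring

end Pool.Agent.W120.WP
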